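import Pool.Agent.K9h86.Th.Final

/-!
# The second order theta map `Th : A_g(2,4) → P^(2^g - 1)` is not an embedding for `g ≥ 4`

If `Th` were an isomorphism of complex analytic spaces onto its image near the point `[τ]` of
`A_g(2,4)`, then every holomorphic function `f` on an open neighbourhood of `[τ]` in `A_g(2,4)`
would be near `[τ]` the restriction of a holomorphic function on an open subset of
`P^(2^g - 1)`; composing with `ℂ^(2^g) ∖ 0 → P^(2^g - 1)` one would get `f = h ∘ Θ` near `τ` with
`h` analytic at the vector `Θ(τ)` of theta constants. The theorem says that this fails at some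
point, for every `g ≥ 4`.
-/

set_option autoImplicit false

open Filter Topology
open Pool.Agent.K9h86.Th

/-- For every `g ≥ 4` there are a point `τ` of `H_g`, at which the vector `Θ(τ)` of second order
theta constants is nonzero, and a holomorphic function `f` on an open neighbourhood `U` of the
point `[τ]` of `A_g(2,4) = H_g / Γ_g(2,4)` which near `τ` is not a holomorphic function of the
second order theta constants. So the theta map `Th` is not, near `[τ]`, an isomorphism of complex
analytic spaces onto its image. -/
theorem Pool.Agent.Results.MP_2bf81a_ag.NotEmbedding.result (g : ℕ) (hg : 4 ≤ g) :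
    ∃ τ : SiegelSpace g, thetaConstants τ ≠ 0 ∧
      ∃ (U : Set (A24 g)) (f : A24 g → ℂ), IsOpen U ∧ toA24 τ ∈ U ∧ HolomorphicOnA24 f U ∧
        ¬ ∃ h : ((Fin g → Fin 2) → ℂ) → ℂ, AnalyticAt ℂ h (thetaConstants τ) ∧
          ∀ᶠ σ in 𝓝 τ, f (toA24 σ) = h (thetaConstants σ) := by
  have hg0 : 0 < g := by omega
  set a : Fin g := ⟨0, by omega⟩ with ha
  set b : Fin g := ⟨1, by omega⟩ with hb
  set c : Fin g := ⟨2, by omega⟩ with hc
  set d : Fin g := ⟨3, by omega⟩ with hd
  refine ⟨tau0 g, thetaConstants_tau0_ne, UA g, fA a b c d, isOpen_UA, mem_UA hg0,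
    fA_holomorphic a b c d, not_factor hg0 ?_ ?_ ?_ ?_ ?_ ?_⟩ <;>
  · simp [ha, hb, hc, hd]
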